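import Pool.Agent.Q262.Tree.Basic

/-!
# The bound on the distance packing domination number of trees fails for `p = d = 6`

The tree has 89 vertices: a root with four branches; each branch is a path of two vertices whose
second vertex carries four legs with five vertices each.
-/

set_option autoImplicit false

open Finset

namespace Pool.Agent.Results.MP_bde484_co.PackingSix

open Pool.Agent.Q262.Tree

/-- `X` is a `d`-distance dominating set. -/
def IsDistDominating {V : Type*} (G : SimpleGraph V) (d : ℕ) (X : Finset V) : Prop :=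
  ∀ u, u ∉ X → ∃ x ∈ X, G.dist u x ≤ d

/-- `X` is a `p`-packing: distinct elements have distance at least `p + 1`. -/
def IsPacking {V : Type*} (G : SimpleGraph V) (p : ℕ) (X : Finset V) : Prop :=
  ∀ u ∈ X, ∀ v ∈ X, u ≠ v → p + 1 ≤ G.dist u v

/-- The `d`-distance `p`-packing domination number (meaningful when such a set exists). -/
noncomputable def packDomNumber {V : Type*} (G : SimpleGraph V) (d p : ℕ) : ℕ :=
  sInf {k | ∃ X : Finset V, IsDistDominating G d X ∧ IsPacking G p X ∧ X.card = k}

/-! ### The tree -/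

/-- Parents: the root is `0`; branch `i` occupies `1 + 22 i, …, 22 + 22 i`. -/
def par (v : ℕ) : ℕ :=
  if v = 0 then 0
  else if (v - 1) % 22 = 0 then 0
  else if (v - 1) % 22 = 1 then v - 1
  else if ((v - 1) % 22 - 2) % 5 = 0 then 22 * ((v - 1) / 22) + 2
  else v - 1

lemma par_lt (v : ℕ) (h : 0 < v) : par v < v := by
  unfold par
  split_ifs with h1 h2 h3 h4 <;> omega

/-- The tree. -/
def T : SimpleGraph (Fin 89) := parentGraph 89 par

lemma T_isTree : T.IsTree := isTree par_lt (by norm_num)

/-- Depth. -/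
def dep (v : ℕ) : ℕ :=
  if v = 0 then 0
  else if (v - 1) % 22 = 0 then 1
  else if (v - 1) % 22 = 1 then 2
  else ((v - 1) % 22 - 2) % 5 + 3

/-- Branch (with value `4` at the root). -/
def br (v : ℕ) : ℕ := if v = 0 then 4 else (v - 1) / 22

/-- Leg inside the branch. -/
def leg (v : ℕ) : ℕ := ((v - 1) % 22 - 2) / 5

/-- The last vertex of leg `j` of branch `i`. -/
def tip (i j : ℕ) : ℕ := 22 * i + 5 * j + 7

/-- Distance to the tip of leg `j` of branch `i`. -/
def phi (i j v : ℕ) : ℤ :=
  if br v ≠ i then 7 + dep v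
  else if dep v ≤ 2 then 7 - dep v
  else if leg v = j then 7 - dep v
  else dep v + 3

lemma phi_step : ∀ i : Fin 4, ∀ j : Fin 4, ∀ v : Fin 89, 0 < v.val →
    (phi i.val j.val v.val ≤ phi i.val j.val (par v.val) + 1 ∧
      phi i.val j.val (par v.val) ≤ phi i.val j.val v.val + 1) := by
  decide +kernel

lemma phi_tip : ∀ i : Fin 4, ∀ j : Fin 4, phi i.val j.val (tip i.val j.val) = 0 := by
  decide +kernel

lemma tip_lt (i j : Fin 4) : tip i.val j.val < 89 := by
  unfold tip; omega

lemma phi_le_dist (i j : Fin 4) (v : Fin 89) :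
    phi i.val j.val v.val ≤ T.dist v ⟨tip i.val j.val, tip_lt i j⟩ := by
  have h := le_dist T_isTree.connected (fun v : Fin 89 => phi i.val j.val v.val) (by
    intro u v huv
    rcases huv.2 with h | h
    · have := (phi_step i j u h.1).1
      rw [h.2] at this
      exact this
    · have := (phi_step i j v h.1).2
      rw [h.2] at this
      exact this) v ⟨tip i.val j.val, tip_lt i j⟩
  simpa [phi_tip i j] using h

lemma phi_small : ∀ i : Fin 4, ∀ j : Fin 4, ∀ v : Fin 89, phi i.val j.val v.val ≤ 6 →
    br v.val = i.val ∧ (dep v.val ≤ 3 ∨ leg v.val = j.val) := by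
  decide +kernel

lemma dep_step : ∀ v : Fin 89, 0 < v.val → dep (par v.val) + 1 ≤ dep v.val := by
  decide +kernel

lemma dist_root (v : Fin 89) : T.dist v ⟨0, by norm_num⟩ ≤ dep v.val :=
  dist_root_le par_lt (by norm_num) dep (fun v h0 hv => dep_step ⟨v, hv⟩ h0) v

lemma card_twelve : ∀ a : Fin 4,
    (univ.filter (fun ij : Fin 4 × Fin 4 => ij.1 ≠ a)).card = 12 := by decide

lemma lower (X : Finset (Fin 89)) (hdom : IsDistDominating T 6 X) (hpack : IsPacking T 6 X) :
    13 ≤ X.card := by
  classical
  -- at most one element of depth at most three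
  have hone : ∀ u ∈ X, ∀ v ∈ X, dep u.val ≤ 3 → dep v.val ≤ 3 → u = v := by
    intro u hu v hv h1 h2
    by_contra hne
    have h3 := hpack u hu v hv hne
    have h4 := T_isTree.connected.dist_triangle (u := u) (v := ⟨0, by norm_num⟩) (w := v)
    have h5 := dist_root u
    have h6 := dist_root v
    rw [SimpleGraph.dist_comm] at h6
    omega
  -- a dominating element for every tip
  have hx : ∀ ij : Fin 4 × Fin 4, ∃ x ∈ X, br x.val = ij.1.val ∧
      (dep x.val ≤ 3 ∨ leg x.val = ij.2.val) := by
    rintro ⟨i, j⟩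
    by_cases hmem : (⟨tip i.val j.val, tip_lt i j⟩ : Fin 89) ∈ X
    · refine ⟨_, hmem, ?_⟩
      exact phi_small i j ⟨tip i.val j.val, tip_lt i j⟩ (by rw [phi_tip i j]; norm_num)
    · obtain ⟨x, hx, hd⟩ := hdom _ hmem
      refine ⟨x, hx, phi_small i j x ?_⟩
      have := phi_le_dist i j x
      rw [SimpleGraph.dist_comm] at this
      have h2 : ((T.dist ⟨tip i.val j.val, tip_lt i j⟩ x : ℕ) : ℤ) ≤ 6 := by exact_mod_cast hd
      linarith
  choose f hfX hfbr hfleg using hx
  let P : Finset (Fin 4 × Fin 4) := univ.filter (fun ij => ¬ dep (f ij).val ≤ 3)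
  have hinj : Set.InjOn f (P : Set (Fin 4 × Fin 4)) := by
    intro a ha b hb hab
    have ha' : ¬ dep (f a).val ≤ 3 := by simpa [P] using ha
    have hb' : ¬ dep (f b).val ≤ 3 := by simpa [P] using hb
    have h1 := (hfleg a).resolve_left ha'
    have h2 := (hfleg b).resolve_left hb'
    have h3 := hfbr a
    have h4 := hfbr b
    rw [hab] at h1 h3
    exact Prod.ext (Fin.ext (by omega)) (Fin.ext (by omega))
  have hdeep : P.card ≤ (X.filter (fun x => ¬ dep x.val ≤ 3)).card := by
    apply Finset.card_le_card_of_injOn f _ hinj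
    intro a ha
    have ha' : ¬ dep (f a).val ≤ 3 := by simpa [P] using ha
    simp only [coe_filter, Set.mem_ofPred_eq]
    exact ⟨hfX a, ha'⟩
  by_cases hall : P = univ
  · rw [hall] at hdeep
    have h1 : (univ : Finset (Fin 4 × Fin 4)).card = 16 := by decide
    have h2 := Finset.card_filter_le X (fun x => ¬ dep x.val ≤ 3)
    omega
  · obtain ⟨a, ha⟩ : ∃ a, a ∉ P := by
      by_contra hno
      push Not at hno
      exact hall (Finset.eq_univ_iff_forall.mpr hno)
    have ha' : dep (f a).val ≤ 3 := by
      by_contra h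
      exact ha (by simp only [P, mem_filter, mem_univ, true_and]; exact h)
    have hsub : (univ.filter (fun ij : Fin 4 × Fin 4 => ij.1 ≠ a.1)) ⊆ P := by
      intro b hb
      rw [mem_filter] at hb
      by_contra hbP
      have hb' : dep (f b).val ≤ 3 := by
        by_contra h
        exact hbP (by simp only [P, mem_filter, mem_univ, true_and]; exact h)
      have h1 := hone _ (hfX a) _ (hfX b) ha' hb'
      have h2 := hfbr a
      have h3 := hfbr b
      rw [h1] at h2
      exact hb.2 (Fin.ext (by omega))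
    have hcard := card_twelve a.1
    have h1 := Finset.card_le_card hsub
    have h2 : (X.filter (fun x => ¬ dep x.val ≤ 3)) ⊆ X.erase (f a) := by
      intro x hx
      rw [mem_filter] at hx
      rw [mem_erase]
      refine ⟨?_, hx.1⟩
      rintro rfl
      exact hx.2 ha'
    have h3 := Finset.card_le_card h2
    rw [Finset.card_erase_of_mem (hfX a)] at h3
    have h4 : 0 < X.card := Finset.card_pos.mpr ⟨_, hfX a⟩
    omega

/-- In a connected graph a packing of maximum size is distance dominating. -/
lemma exists_both {V : Type*} [Fintype V] (G : SimpleGraph V) (p : ℕ) :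
    ∃ X : Finset V, IsDistDominating G p X ∧ IsPacking G p X := by
  classical
  obtain ⟨X, hX, hmax⟩ := (Finset.univ.filter (fun X : Finset V =>
    IsPacking G p X)).exists_max_image (fun X => X.card) ⟨∅, by
      rw [mem_filter]; exact ⟨mem_univ _, fun u hu => absurd hu (Finset.notMem_empty u)⟩⟩
  rw [mem_filter] at hX
  refine ⟨X, ?_, hX.2⟩
  intro v hv
  by_contra hno
  push Not at hno
  have hins : IsPacking G p (insert v X) := by
    intro a ha b hb hab
    rw [mem_insert] at ha hb
    rcases ha with rfl | ha <;> rcases hb with rfl | hb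
    · exact absurd rfl hab
    · exact hno b hb
    · rw [SimpleGraph.dist_comm]; exact hno a ha
    · exact hX.2 a ha b hb hab
  have h1 := hmax (insert v X) (by rw [mem_filter]; exact ⟨mem_univ _, hins⟩)
  rw [card_insert_of_notMem hv] at h1
  omega

theorem result : ∃ (p d n : ℕ) (T : SimpleGraph (Fin n)), 3 ≤ p ∧ p ≤ d ∧ T.IsTree ∧
    (∃ X : Finset (Fin n), IsDistDominating T d X ∧ IsPacking T p X) ∧
    ((n : ℝ) - 2 * Real.sqrt n + d + 1) / d < packDomNumber T d p := by
  refine ⟨6, 6, 89, T, by norm_num, le_refl _, T_isTree, exists_both T 6, ?_⟩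
  have h13 : 13 ≤ packDomNumber T 6 6 := by
    obtain ⟨X, h1, h2⟩ := exists_both T 6
    have hne : {k | ∃ X : Finset (Fin 89), IsDistDominating T 6 X ∧ IsPacking T 6 X ∧
      X.card = k}.Nonempty := ⟨_, X, h1, h2, rfl⟩
    apply le_csInf hne
    rintro k ⟨Y, hY1, hY2, rfl⟩
    exact lower Y hY1 hY2
  have h2 : (13 : ℝ) ≤ packDomNumber T 6 6 := by exact_mod_cast h13
  have h3 : (9 : ℝ) < Real.sqrt (89 : ℝ) := by
    rw [show (9 : ℝ) = Real.sqrt 81 by
      rw [show (81 : ℝ) = 9 ^ 2 by norm_num, Real.sqrt_sq (by norm_num)]]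
    exact Real.sqrt_lt_sqrt (by norm_num) (by norm_num)
  refine lt_of_lt_of_le ?_ h2
  push_cast
  rw [div_lt_iff₀ (by norm_num)]
  linarith

end Pool.Agent.Results.MP_bde484_co.PackingSix
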